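import Pool.Agent.Helper93.KS.St

/-!
# Project KS, module T1: the numerical table for dimension one
-/

set_option autoImplicit false

namespace Pool.Agent.Helper29.KS

open Finset Filter Topology Pool.Agent.Helper93.KS

/-! ### the computation -/

/-- one pass, `i` downwards -/
def ps : ℕ → ℕ → List ℕ → List ℕ → List ℕ
  | i, p, x :: xs, l :: ls =>
      (bif Nat.ble x (((i + 1) * p + l + i - 1) / i) then x else ((i + 1) * p + l + i - 1) / i) ::
        ps (i - 1) (bif Nat.ble x (((i + 1) * p + l + i - 1) / i) then x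
          else ((i + 1) * p + l + i - 1) / i) xs ls
  | _, _, [], _ => []
  | _, _, _ :: _, [] => []

/-- the second half of a step -/
def st2 (ls u : List ℕ) : List ℕ × List ℕ := (u, ps 319 4 ls (u.drop 16))

/-- one step -/
def stp (v : List ℕ × List ℕ) : List ℕ × List ℕ :=
  st2 v.2 (ps 319 4 v.1 (v.2.drop 16 ++ List.replicate 47 1000000))

/-- iteration -/
def itr : ℕ → List ℕ × List ℕ → List ℕ × List ℕ
  | 0, v => v
  | n + 1, v => itr n (stp v)

/-- the check -/
def chk (v : List ℕ × List ℕ) : Bool :=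
  Nat.ble (v.2.getD 236 0) 3300 && (Nat.ble (v.1.getD 236 0) 3300 &&
    (Nat.ble (v.1.getD 254 0) 28600 && (Nat.ble (v.1.getD 261 0) 68600 &&
    (Nat.ble (v.1.getD 266 0) 127300 && (Nat.ble (v.1.getD 271 0) 234200 &&
    (Nat.ble (v.1.getD 278 0) 445000 && (Nat.ble (v.1.getD 286 0) 795500 &&
    (Nat.ble (v.1.getD 293 0) 1279000 && Nat.ble (v.1.getD 302 0) 2485000))))))))

private theorem chk_true :
    chk (itr 18 (List.replicate 319 1000000000, List.replicate 288 1000000)) = true := by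
  decide +kernel

/-! ### validity -/

/-- validity of a list, starting at the index `i`, downwards -/
def Va (P : ℕ → ℕ → Prop) : ℕ → List ℕ → Prop
  | _, [] => True
  | i, x :: xs => P i x ∧ Va P (i - 1) xs

private theorem cond_ble (x y : ℕ) : (bif Nat.ble x y then x else y) = min x y := by
  by_cases h : x ≤ y
  · rw [min_eq_left h]; simp [Nat.ble_eq.mpr h]
  · rw [min_eq_right (by omega)]
    have : Nat.ble x y = false := by
      by_contra hc
      exact h (Nat.ble_eq.mp (by simpa using hc))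
    simp [this]

private theorem ceil_bound (A i : ℕ) (hi : 1 ≤ i) : (A : ℝ) / i ≤ (((A + i - 1) / i : ℕ) : ℝ) := by
  have hi' : (0 : ℝ) < i := by exact_mod_cast hi
  rw [div_le_iff₀ hi']
  have h : A ≤ (A + i - 1) / i * i := by
    have h1 := Nat.div_add_mod (A + i - 1) i
    have h2 := Nat.mod_lt (A + i - 1) (show 0 < i by omega)
    have h3 : (A + i - 1) / i * i = i * ((A + i - 1) / i) := Nat.mul_comm _ _
    omega
  exact_mod_cast h

private theorem ps_len : ∀ (xs ls : List ℕ) (i p : ℕ), xs.length ≤ ls.length →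
    (ps i p xs ls).length = xs.length
  | [], ls, i, p, _ => by cases ls <;> simp [ps]
  | x :: xs, [], i, p, h => by simp at h
  | x :: xs, l :: ls, i, p, h => by
    simp only [ps, List.length_cons]
    rw [ps_len xs ls _ _ (by simpa using h)]

private theorem ps_valid (P Q : ℕ → ℕ → Prop) (lo : ℕ) (hlo : 1 ≤ lo)
    (hstep : ∀ i p l, lo ≤ i → P (i + 1) p → Q i l → P i (((i + 1) * p + l + i - 1) / i)) :
    ∀ (xs ls : List ℕ) (i p : ℕ), Va P i xs → Va Q i ls → P (i + 1) p →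
      xs.length + lo ≤ i + 1 → Va P i (ps i p xs ls)
  | [], ls, i, p, _, _, _, _ => by cases ls <;> simp [ps, Va]
  | x :: xs, [], i, p, _, _, _, _ => by simp [ps, Va]
  | x :: xs, l :: ls, i, p, hx, hl, hp, hlen => by
    simp only [ps, cond_ble]
    obtain ⟨hx1, hx2⟩ := hx
    obtain ⟨hl1, hl2⟩ := hl
    simp only [List.length_cons] at hlen
    have hi : lo ≤ i := by omega
    have hy := hstep i p l hi hp hl1
    have hm : P i (min x (((i + 1) * p + l + i - 1) / i)) := by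
      rcases min_choice x (((i + 1) * p + l + i - 1) / i) with h | h <;> rw [h]
      · exact hx1
      · exact hy
    refine ⟨hm, ps_valid P Q lo hlo hstep xs ls (i - 1) _ hx2 hl2 ?_ (by omega)⟩
    have e : i - 1 + 1 = i := by omega
    rw [e]
    exact hm

private theorem Va_append (P : ℕ → ℕ → Prop) : ∀ (xs ys : List ℕ) (i : ℕ), Va P i xs →
    Va P (i - xs.length) ys → Va P i (xs ++ ys)
  | [], ys, i, _, h => by simpa using h
  | x :: xs, ys, i, h1, h2 => by
    refine ⟨h1.1, Va_append P xs ys (i - 1) h1.2 ?_⟩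
    have : i - 1 - xs.length = i - (x :: xs).length := by
      simp only [List.length_cons]; omega
    rw [this]; exact h2

private theorem Va_drop (P : ℕ → ℕ → Prop) : ∀ (k : ℕ) (xs : List ℕ) (i : ℕ), Va P i xs →
    Va P (i - k) (xs.drop k)
  | 0, xs, i, h => by simpa using h
  | k + 1, [], i, _ => by simp [Va]
  | k + 1, x :: xs, i, h => by
    have := Va_drop P k xs (i - 1) h.2
    simp only [List.drop_succ_cons]
    have e : i - (k + 1) = i - 1 - k := by omega
    rw [e]; exact this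

private theorem Va_get (P : ℕ → ℕ → Prop) : ∀ (k : ℕ) (xs : List ℕ) (i : ℕ), Va P i xs →
    k < xs.length → P (i - k) (xs.getD k 0)
  | k, [], i, _, hk => by simp at hk
  | 0, x :: xs, i, h, _ => by simpa using h.1
  | k + 1, x :: xs, i, h, hk => by
    have := Va_get P k xs (i - 1) h.2 (by simpa using hk)
    have e : i - (k + 1) = i - 1 - k := by omega
    rw [e]
    simpa using this

private theorem Va_rep (P : ℕ → ℕ → Prop) (x lo : ℕ) (hlo : 1 ≤ lo) (hi : ℕ)
    (h : ∀ i, lo ≤ i → i ≤ hi → P i x) : ∀ n i : ℕ, n + lo ≤ i + 1 → i ≤ hi →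
    Va P i (List.replicate n x)
  | 0, i, _, _ => by simp [Va]
  | n + 1, i, h1, h2 => by
    rw [List.replicate_succ]
    exact ⟨h i (by omega) h2, Va_rep P x lo hlo hi h n (i - 1) (by omega) (by omega)⟩

private theorem Va_shift (P Q : ℕ → ℕ → Prop) (k lo : ℕ) (hlo : 1 ≤ lo)
    (h : ∀ i x, lo ≤ i → P (i - k) x → Q i x) :
    ∀ (xs : List ℕ) (i : ℕ), Va P (i - k) xs → xs.length + lo ≤ i + 1 → Va Q i xs
  | [], i, _, _ => by simp [Va]
  | x :: xs, i, hx, hlen => by
    simp only [List.length_cons] at hlen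
    refine ⟨h i x (by omega) hx.1, Va_shift P Q k lo hlo h xs (i - 1) ?_ (by omega)⟩
    have e : i - 1 - k = i - k - 1 := by omega
    rw [e]
    exact hx.2

/-! ### the rules -/

private theorem HU_mono (κ S : ℕ) (s s' c c' : ℝ) (hs : s ≤ s') (hc : c ≤ c') (h : HU κ S s c) :
    HU κ S s' c' := by
  intro η hη
  obtain ⟨js, hjs⟩ := h η hη
  refine ⟨js, fun j0 h0 U L hA j N hj hN hsN => ?_⟩
  exact hA.um _ _ _ _ (hjs j0 h0 U L hA j N hj hN
    (le_trans (mul_le_mul_of_nonneg_right hs (by positivity)) hsN)) (by linarith)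

private theorem HL_mono (κ S : ℕ) (s s' c c' : ℝ) (hs : s ≤ s') (hc : c ≤ c') (h : HL κ S s c) :
    HL κ S s' c' := by
  intro η hη
  obtain ⟨js, hjs⟩ := h η hη
  refine ⟨js, fun j0 h0 U L hA j N hj hN hsN => ?_⟩
  exact hA.lm _ _ _ _ (hjs j0 h0 U L hA j N hj hN
    (le_trans (mul_le_mul_of_nonneg_right hs (by positivity)) hsN)) (by linarith)

/-- validity of an upper bound -/
def PU (S i x : ℕ) : Prop := HU 1 S ((i : ℝ) / 16) ((x : ℝ) / 1000000)

/-- validity of a lower bound -/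
def PL (S i x : ℕ) : Prop := HL 1 S ((i : ℝ) / 16) ((x : ℝ) / 1000000)

private theorem pw_eq (i : ℕ) (hi : 1 ≤ i) (c x : ℝ) :
    (((i : ℝ) + 1) / i) ^ 1 * c + ((((i : ℝ) + 1) / i) ^ 1 - 1) * x = (((i : ℝ) + 1) * c + x) / i := by
  have hi' : (i : ℝ) ≠ 0 := by
    have : i ≠ 0 := by omega
    exact_mod_cast this
  field_simp
  ring

private theorem val_le (i p l : ℕ) (hi : 1 ≤ i) :
    (((i : ℝ) + 1) * ((p : ℝ) / 1000000) + (l : ℝ) / 1000000) / i ≤
      ((((i + 1) * p + l + i - 1) / i : ℕ) : ℝ) / 1000000 := by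
  have hb := ceil_bound ((i + 1) * p + l) i hi
  have e : (((i : ℝ) + 1) * ((p : ℝ) / 1000000) + (l : ℝ) / 1000000) / i =
      ((((i + 1) * p + l : ℕ) : ℝ) / i) / 1000000 := by
    push_cast
    ring
  rw [e]
  gcongr

private theorem stepU (hU : StDU) (S i p l : ℕ) (hi : 48 ≤ i) (hp : PU S (i + 1) p)
    (hl : PL S (i - 16) l) : PU S i (((i + 1) * p + l + i - 1) / i) := by
  unfold PU PL at *
  have e1 : ((i - 16 : ℕ) : ℝ) = (i : ℝ) - 16 := by
    rw [Nat.cast_sub (by omega)]; norm_num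
  rw [e1] at hl
  have e2 : (((i + 1 : ℕ)) : ℝ) = (i : ℝ) + 1 := by push_cast; ring
  rw [e2] at hp
  have h := hU 1 S 16 i ((p : ℝ) / 1000000) ((l : ℝ) / 1000000) (by norm_num) (by norm_num)
    (by omega) (by positivity) (by positivity) (by exact_mod_cast hp) (by exact_mod_cast hl)
  rw [pw_eq i (by omega)] at h
  exact HU_mono 1 S _ _ _ _ (by norm_num) (val_le i p l (by omega)) h

private theorem stepK (hK : StDK) (S i p : ℕ) (hi : 1 ≤ i) (hp : PU S (i + 1) p) :
    PU S i (((i + 1) * p + 1000000 + i - 1) / i) := by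
  unfold PU at *
  have e2 : (((i + 1 : ℕ)) : ℝ) = (i : ℝ) + 1 := by push_cast; ring
  rw [e2] at hp
  have h := hK 1 S 16 i ((p : ℝ) / 1000000) (by norm_num) (by norm_num) hi (by positivity)
    (by exact_mod_cast hp)
  have e3 : (((i : ℝ) + 1) / i) ^ 1 * ((p : ℝ) / 1000000) + ((((i : ℝ) + 1) / i) ^ 1 - 1) =
      (((i : ℝ) + 1) * ((p : ℝ) / 1000000) + ((1000000 : ℕ) : ℝ) / 1000000) / i := by
    have := pw_eq i hi ((p : ℝ) / 1000000) (((1000000 : ℕ) : ℝ) / 1000000)
    rw [← this]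
    norm_num
  rw [e3] at h
  exact HU_mono 1 S _ _ _ _ (by norm_num) (val_le i p 1000000 hi) h

private theorem stepL (hL : StDL) (S i p u : ℕ) (hi : 32 ≤ i) (hp : PL S (i + 1) p)
    (hu : PU S (i - 16) u) : PL S i (((i + 1) * p + u + i - 1) / i) := by
  unfold PU PL at *
  have e1 : ((i - 16 : ℕ) : ℝ) = (i : ℝ) - 16 := by
    rw [Nat.cast_sub (by omega)]; norm_num
  rw [e1] at hu
  have e2 : (((i + 1 : ℕ)) : ℝ) = (i : ℝ) + 1 := by push_cast; ring
  rw [e2] at hp
  have h := hL 1 S 16 i ((p : ℝ) / 1000000) ((u : ℝ) / 1000000) (by norm_num) (by norm_num)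
    (by omega) (by positivity) (by positivity) (by exact_mod_cast hp) (by exact_mod_cast hu)
  rw [pw_eq i (by omega)] at h
  exact HL_mono 1 S _ _ _ _ (by norm_num) (val_le i p u (by omega)) h

/-! ### the start -/

private theorem exp_neg_bound (x : ℝ) (hx : 20 ≤ x) : 1750 * Real.exp (-x) ≤ 4 / 1000000 := by
  have h1 : Real.exp (-x) ≤ Real.exp (-20) := Real.exp_le_exp.mpr (by linarith)
  have h2 : (450000000 : ℝ) ≤ Real.exp 20 := by
    have e : Real.exp 20 = Real.exp 1 ^ 20 := by rw [← Real.exp_nat_mul]; norm_num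
    rw [e]
    calc (450000000 : ℝ) ≤ 2.7182818283 ^ 20 := by norm_num
      _ ≤ _ := by
        gcongr
        exact Real.exp_one_gt_d9.le
  have h3 : Real.exp (-20) ≤ 1 / 450000000 := by
    rw [Real.exp_neg, inv_eq_one_div]
    exact one_div_le_one_div_of_le (by norm_num) h2
  calc 1750 * Real.exp (-x) ≤ 1750 * (1 / 450000000) := by linarith
    _ ≤ _ := by norm_num

private theorem startU (hI : StDI) (S : ℕ) : HU 1 S 20 (4 / 1000000) := by
  intro η hη
  obtain ⟨js, hjs⟩ := hI 1 S (by norm_num)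
  refine ⟨max js 1, fun j0 h0 U L hA j N hj hN hsN => ?_⟩
  have h2' : 1 ≤ j0 := le_trans (le_max_right _ _) h0
  have hj0 : (0 : ℝ) < j := by
    have : 0 < j := by omega
    exact_mod_cast this
  have hN14 : 20 * j ≤ N := by exact_mod_cast hsN
  have h := (hjs j0 (le_trans (le_max_left _ _) h0) U L hA j N hj hN).2 (by omega)
  refine hA.um _ _ _ _ h ?_
  have := exp_neg_bound ((N : ℝ) / j) (by rw [le_div_iff₀ hj0]; exact hsN)
  linarith

private theorem startL (hI : StDI) (S : ℕ) : HL 1 S 20 (4 / 1000000) := by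
  intro η hη
  obtain ⟨js, hjs⟩ := hI 1 S (by norm_num)
  refine ⟨max js 1, fun j0 h0 U L hA j N hj hN hsN => ?_⟩
  have h2' : 1 ≤ j0 := le_trans (le_max_right _ _) h0
  have hj0 : (0 : ℝ) < j := by
    have : 0 < j := by omega
    exact_mod_cast this
  have h := (hjs j0 (le_trans (le_max_left _ _) h0) U L hA j N hj hN).1
  refine hA.lm _ _ _ _ h ?_
  have := exp_neg_bound ((N : ℝ) / j) (by rw [le_div_iff₀ hj0]; exact hsN)
  linarith

private theorem HL_one (S : ℕ) (s : ℝ) : HL 1 S s 1 := by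
  intro η hη
  refine ⟨0, fun j0 _ U L hA j N hj hN _ => ?_⟩
  exact hA.lm _ _ _ _ (hA.lz N j hj hN) (by linarith)

private theorem HU_keep (hI : StDI) (hK : StDK) (S : ℕ) : ∀ k : ℕ, k ≤ 319 →
    HU 1 S (((320 - k : ℕ) : ℝ) / 16) (320 * (1 + 4 / 1000000) / ((320 - k : ℕ) : ℝ) - 1) := by
  intro k
  induction k with
  | zero =>
    intro _
    refine HU_mono 1 S _ _ _ _ ?_ ?_ (startU hI S) <;> norm_num
  | succ k ih =>
    intro hk
    have h := ih (by omega)
    obtain ⟨i, hi⟩ : ∃ i, i = 320 - (k + 1) := ⟨_, rfl⟩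
    have hi1 : 1 ≤ i := by omega
    have hi2 : i ≤ 320 := by omega
    have e : 320 - k = i + 1 := by omega
    rw [e] at h
    rw [← hi]
    have e2 : (((i + 1 : ℕ)) : ℝ) = (i : ℝ) + 1 := by push_cast; ring
    rw [e2] at h
    have hpos : (0 : ℝ) < i := by exact_mod_cast hi1
    have hle : (i : ℝ) + 1 ≤ 320 := by
      have : i + 1 ≤ 320 := by omega
      exact_mod_cast this
    have h0 : 0 ≤ 320 * (1 + 4 / 1000000) / ((i : ℝ) + 1) - 1 := by
      rw [sub_nonneg, le_div_iff₀ (by linarith)]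
      linarith
    have h' := hK 1 S 16 i _ (by norm_num) (by norm_num) hi1 h0 (by exact_mod_cast h)
    refine HU_mono 1 S _ _ _ _ (by norm_num) (le_of_eq ?_) h'
    field_simp
    ring

private theorem HU_start (hI : StDI) (hK : StDK) (S i : ℕ) (h1 : 1 ≤ i) (h2 : i ≤ 319) :
    PU S i 1000000000 := by
  have h := HU_keep hI hK S (320 - i) (by omega)
  have e : 320 - (320 - i) = i := by omega
  rw [e] at h
  refine HU_mono 1 S _ _ _ _ le_rfl ?_ h
  have hpos : (1 : ℝ) ≤ i := by exact_mod_cast h1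
  have : 320 * (1 + 4 / 1000000) / (i : ℝ) ≤ 320 * (1 + 4 / 1000000) := by
    apply div_le_self (by norm_num) hpos
  calc 320 * (1 + 4 / 1000000) / (i : ℝ) - 1 ≤ 320 * (1 + 4 / 1000000) - 1 := by linarith
    _ ≤ _ := by norm_num

/-! ### the iteration -/

/-- validity of the state -/
def Vd (S : ℕ) (v : List ℕ × List ℕ) : Prop :=
  v.1.length = 319 ∧ v.2.length = 288 ∧ Va (PU S) 319 v.1 ∧ Va (PL S) 319 v.2

private theorem stp_valid (hI : StDI) (hK : StDK) (hU : StDU) (hL : StDL) (S : ℕ)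
    (v : List ℕ × List ℕ) (h : Vd S v) : Vd S (stp v) := by
  obtain ⟨k1, k2, k3, k4⟩ := h
  obtain ⟨v1, v2⟩ := v
  simp only at k1 k2 k3 k4
  have p4U : PU S (319 + 1) 4 := by
    refine HU_mono 1 S _ _ _ _ ?_ ?_ (startU hI S) <;> norm_num
  have p4L : PL S (319 + 1) 4 := by
    refine HL_mono 1 S _ _ _ _ ?_ ?_ (startL hI S) <;> norm_num
  have hlen : (v2.drop 16).length = 272 := by rw [List.length_drop, k2]
  obtain ⟨w, hw⟩ : ∃ w, w = v2.drop 16 ++ List.replicate 47 1000000 := ⟨_, rfl⟩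
  have hwlen : w.length = 319 := by
    rw [hw, List.length_append, hlen, List.length_replicate]
  have hQ : Va (fun i l => (48 ≤ i ∧ PL S (i - 16) l) ∨ (i < 48 ∧ l = 1000000)) 319 w := by
    rw [hw]
    refine Va_append _ _ _ 319 ?_ ?_
    · refine Va_shift (PL S) _ 16 48 (by norm_num) ?_ _ 319 (Va_drop _ 16 v2 319 k4) ?_
      · intro i x hi hx
        exact Or.inl ⟨hi, hx⟩
      · rw [hlen]
    · rw [hlen]
      refine Va_rep _ 1000000 1 le_rfl 47 ?_ 47 47 (by norm_num) le_rfl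
      intro i _ hi
      exact Or.inr ⟨by omega, rfl⟩
  obtain ⟨u, hu⟩ : ∃ u, u = ps 319 4 v1 w := ⟨_, rfl⟩
  have l1 : u.length = 319 := by
    rw [hu, ps_len _ _ _ _ (by rw [k1, hwlen]), k1]
  have u1 : Va (PU S) 319 u := by
    rw [hu]
    refine ps_valid (PU S) _ 1 le_rfl ?_ v1 w 319 4 k3 hQ p4U (by rw [k1])
    intro i p l hi hp hl
    rcases hl with ⟨h48, hl⟩ | ⟨_, hl⟩
    · exact stepU hU S i p l h48 hp hl
    · rw [hl]
      exact stepK hK S i p hi hp
  have hQ' : Va (fun i x => PU S (i - 16) x) 319 (u.drop 16) := by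
    refine Va_shift (PU S) _ 16 1 (by norm_num) (fun i x _ hx => hx) _ 319
      (Va_drop _ 16 u 319 u1) ?_
    rw [List.length_drop, l1]
    norm_num
  have es : stp (v1, v2) = (u, ps 319 4 v2 (u.drop 16)) := by
    rw [hu, hw]
    rfl
  rw [es]
  refine ⟨l1, ?_, u1, ?_⟩
  · show (ps 319 4 v2 (u.drop 16)).length = 288
    rw [ps_len, k2]
    rw [k2, List.length_drop, l1]
    norm_num
  · refine ps_valid (PL S) _ 32 (by norm_num) ?_ v2 (u.drop 16) 319 4 k4 hQ' p4L (by rw [k2])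
    intro i p x hi hp hx
    exact stepL hL S i p x hi hp hx

private theorem itr_valid (hI : StDI) (hK : StDK) (hU : StDU) (hL : StDL) (S : ℕ) :
    ∀ (n : ℕ) (v : List ℕ × List ℕ), Vd S v → Vd S (itr n v)
  | 0, v, h => h
  | n + 1, v, h => itr_valid hI hK hU hL S n (stp v) (stp_valid hI hK hU hL S v h)

private theorem getU (S : ℕ) (w : List ℕ) (hw : w.length = 319) (hV : Va (PU S) 319 w) (k b : ℕ)
    (hk : k < 319) (hb : w.getD k 0 ≤ b) (s c : ℝ) (hs : ((319 - k : ℕ) : ℝ) / 16 ≤ s)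
    (hc : (b : ℝ) / 1000000 ≤ c) : HU 1 S s c := by
  have h := Va_get (PU S) k w 319 hV (by rw [hw]; exact hk)
  refine HU_mono 1 S _ _ _ _ hs ?_ h
  refine le_trans ?_ hc
  gcongr

private theorem getL (S : ℕ) (w : List ℕ) (hw : w.length = 288) (hV : Va (PL S) 319 w) (k b : ℕ)
    (hk : k < 288) (hb : w.getD k 0 ≤ b) (s c : ℝ) (hs : ((319 - k : ℕ) : ℝ) / 16 ≤ s)
    (hc : (b : ℝ) / 1000000 ≤ c) : HL 1 S s c := by
  have h := Va_get (PL S) k w 319 hV (by rw [hw]; exact hk)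
  refine HL_mono 1 S _ _ _ _ hs ?_ h
  refine le_trans ?_ hc
  gcongr

theorem hT1 (hI : StDI) (hK : StDK) (hU : StDU) (hL : StDL) : StT1 := by
  intro S
  have hV := itr_valid hI hK hU hL S 18
    (List.replicate 319 1000000000, List.replicate 288 1000000)
    ⟨List.length_replicate, List.length_replicate,
      Va_rep (PU S) _ 1 le_rfl 319 (fun i h1 h2 => HU_start hI hK S i h1 h2) 319 319
        (by norm_num) le_rfl,
      Va_rep (PL S) _ 32 (by norm_num) 319 (fun i _ _ => by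
        refine HL_mono 1 S _ _ _ _ le_rfl ?_ (HL_one S _)
        norm_num) 288 319 (by norm_num) le_rfl⟩
  have hc := chk_true
  obtain ⟨w1, w2, w3, w4⟩ := hV
  generalize itr 18 (List.replicate 319 1000000000, List.replicate 288 1000000) = w at *
  unfold chk at hc
  simp only [Bool.and_eq_true, Nat.ble_eq] at hc
  obtain ⟨c1, c2, c3, c4, c5, c6, c7, c8, c9, c10⟩ := hc
  refine ⟨getL S _ w2 w4 236 _ (by norm_num) c1 _ _ ?_ ?_,
    getU S _ w1 w3 236 _ (by norm_num) c2 _ _ ?_ ?_,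
    getU S _ w1 w3 254 _ (by norm_num) c3 _ _ ?_ ?_,
    getU S _ w1 w3 261 _ (by norm_num) c4 _ _ ?_ ?_,
    getU S _ w1 w3 266 _ (by norm_num) c5 _ _ ?_ ?_,
    getU S _ w1 w3 271 _ (by norm_num) c6 _ _ ?_ ?_,
    getU S _ w1 w3 278 _ (by norm_num) c7 _ _ ?_ ?_,
    getU S _ w1 w3 286 _ (by norm_num) c8 _ _ ?_ ?_,
    getU S _ w1 w3 293 _ (by norm_num) c9 _ _ ?_ ?_,
    getU S _ w1 w3 302 _ (by norm_num) c10 _ _ ?_ ?_⟩ <;> norm_num

end Pool.Agent.Helper29.KS
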